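import Pool.Agent.CBG.StmtsB

/-!
# Row ORX of squad CBG: the orthogonal theorem for actions of the torus `Circle × Circle`
-/

set_option autoImplicit false
set_option maxSynthPendingDepth 3

open scoped Manifold ContDiff Topology
open Set Filter MeasureTheory

namespace Pool.Agent.CBG.H52

theorem circ (z : Circle) : ∃ s : ℝ, Circle.exp (2 * Real.pi * s) = z := by
  refine ⟨Complex.arg z / (2 * Real.pi), ?_⟩
  have h : 2 * Real.pi * (Complex.arg z / (2 * Real.pi)) = Complex.arg z := by
    field_simp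
  rw [h]
  exact Circle.exp_arg z

theorem orx (thh : ThhStmt) (glh : GlhStmt) (cgl : CglStmt) (psr : PsrStmt) (exq : ExpStmt) :
    OrxStmt := by
  intro n E _ _ _ _ _ hs hfin g
  have hT : TAct (n := n) (tor E) := exq n E hs hfin
  refine ⟨thh n E (tor E) hT g, ?_⟩
  intro hc hne
  refine ⟨glh n E (tor E) hT g, fun h => cgl n E (tor E) hT g (fun t => h _), ?_⟩
  intro g₀ ψ ρ hw hinv hmin
  refine psr n E (tor E) hT g₀ g ψ ρ hw (fun t x u v => hinv _ x u v) ?_
  intro x
  obtain ⟨η, hη⟩ := hmin x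
  obtain ⟨s1, h1⟩ := circ η.1
  obtain ⟨s2, h2⟩ := circ η.2
  have h3 : tor E (s1, s2) x = η • x := by
    unfold tor
    simp only [h1, h2]
  refine ⟨(s1, s2), fun t => ?_⟩
  rw [h3]
  exact hη _

end Pool.Agent.CBG.H52
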