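import Pool.Agent.CBG.StmtsA

/-!
# Row PSI of squad CBG: parametrizations adapted to a torus action
-/

set_option autoImplicit false
set_option maxSynthPendingDepth 3

open scoped Manifold ContDiff Topology
open Set Filter MeasureTheory

namespace Pool.Agent.CBG.H52

section

variable {n : ℕ} {E : Type} [TopologicalSpace E] [ChartedSpace (Ed n) E] [IsManifold (𝓡 n) ∞ E]

/-- a curve with vanishing derivative is constant -/
theorem const_curve (γ : ℝ → E) (hs : ContMDiff 𝓘(ℝ, ℝ) (𝓡 n) ∞ γ)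
    (h0 : ∀ s, mfderiv 𝓘(ℝ, ℝ) (𝓡 n) γ s = 0) (s t : ℝ) : γ s = γ t := by
  have hloc : IsLocallyConstant γ := by
    rw [IsLocallyConstant.iff_eventually_eq]
    intro s
    have hsrc : ∀ᶠ r in 𝓝 s, γ r ∈ (extChartAt (𝓡 n) (γ s)).source :=
      hs.continuous.continuousAt.preimage_mem_nhds (extChartAt_source_mem_nhds (γ s))
    obtain ⟨ε, hε, hball⟩ := Metric.eventually_nhds_iff_ball.1 hsrc
    have hd : ∀ r ∈ Metric.ball s ε,
        HasFDerivAt (fun r => extChartAt (𝓡 n) (γ s) (γ r)) (0 : ℝ →L[ℝ] Ed n) r := by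
      intro r hr
      have h1 : HasMFDerivAt 𝓘(ℝ, ℝ) (𝓡 n) γ r (mfderiv 𝓘(ℝ, ℝ) (𝓡 n) γ r) :=
        (hs.mdifferentiable (by simp) r).hasMFDerivAt
      have hb := hball r hr
      rw [extChartAt_source] at hb
      have h2 := (mdifferentiableAt_extChartAt (I := 𝓡 n) hb).hasMFDerivAt
      have h3 := h2.comp r h1
      rw [h0] at h3
      have h4 := h3.hasFDerivAt
      simpa using! h4
    have hc : ∀ r ∈ Metric.ball s ε,
        extChartAt (𝓡 n) (γ s) (γ r) = extChartAt (𝓡 n) (γ s) (γ s) := by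
      intro r hr
      refine (convex_ball s ε).is_const_of_fderivWithin_eq_zero (𝕜 := ℝ)
        (f := fun r => extChartAt (𝓡 n) (γ s) (γ r)) (fun x hx => ?_) (fun x hx => ?_) hr
        (Metric.mem_ball_self hε)
      · exact (hd x hx).differentiableAt.differentiableWithinAt
      · rw [fderivWithin_of_isOpen Metric.isOpen_ball hx]
        exact (hd x hx).fderiv
    filter_upwards [Metric.ball_mem_nhds s hε] with r hr
    exact (extChartAt (𝓡 n) (γ s)).injOn (hball r hr) (mem_extChartAt_source _) (hc r hr)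
  exact hloc.apply_eq_of_preconnectedSpace s t

end

theorem psi (hvfx : VfxStmt) : PsiStmt := by
  intro n E _ _ _ _ Φ hΦ p
  obtain ⟨v1, v2, v3, v4, v5, v6⟩ := hvfx n E Φ hΦ
  -- the fundamental fields at `p`
  let X : ℝ × ℝ →L[ℝ] Ed n := mfderiv 𝓘(ℝ, ℝ × ℝ) (𝓡 n) (fun t => Φ t p) 0
  have hX : ∀ a, X a = vf (n := n) Φ a p := fun a => rfl
  have hpd : ∀ q t, MDifferentiableAt 𝓘(ℝ, ℝ × ℝ) (𝓡 n) (fun t => Φ t q) t :=
    fun q t => (v2 q).mdifferentiable (by simp) t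
  have hmd : ∀ t q, MDifferentiableAt (𝓡 n) (𝓡 n) (Φ t) q :=
    fun t q => (v1 t).mdifferentiable (by simp) q
  have Xinj : Function.Injective X := by
    rw [injective_iff_map_eq_zero]
    intro a ha
    apply hΦ.lf p a
    intro s
    have hγ : ContMDiff 𝓘(ℝ, ℝ) (𝓡 n) ∞ (fun s : ℝ => Φ (s • a) p) := by
      have h1 : ContMDiff 𝓘(ℝ, ℝ) 𝓘(ℝ, ℝ × ℝ) ∞ (fun s : ℝ => s • a) :=
        (contDiff_id.smul contDiff_const).contMDiff
      exact (v2 p).comp h1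
    have h0 : HasMFDerivAt 𝓘(ℝ, ℝ) (𝓡 n) (fun s : ℝ => Φ (s • a) p) 0 0 := by
      have h1 : HasMFDerivAt 𝓘(ℝ, ℝ) 𝓘(ℝ, ℝ × ℝ) (fun s : ℝ => s • a) (0 : ℝ)
          (ContinuousLinearMap.smulRight (1 : ℝ →L[ℝ] ℝ) a) :=
        ((hasFDerivAt_id (0 : ℝ)).smul_const a).hasMFDerivAt
      have h2 : ∀ t : ℝ × ℝ, t = 0 → HasMFDerivAt 𝓘(ℝ, ℝ × ℝ) (𝓡 n) (fun t => Φ t p) t
          (show ℝ × ℝ →L[ℝ] Ed n from X) := by
        intro t ht
        subst ht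
        exact (hpd p 0).hasMFDerivAt
      have h3 := (h2 ((0 : ℝ) • a) (zero_smul _ _)).comp (0 : ℝ) h1
      have h4 : (X.comp (ContinuousLinearMap.smulRight (1 : ℝ →L[ℝ] ℝ) a) : ℝ →L[ℝ] Ed n) = 0 := by
        ext1
        simp [ha]
      have h5 : HasMFDerivAt 𝓘(ℝ, ℝ) (𝓡 n) (fun s : ℝ => Φ (s • a) p) 0
          (show ℝ →L[ℝ] Ed n from
            X.comp (ContinuousLinearMap.smulRight (1 : ℝ →L[ℝ] ℝ) a)) := h3
      rw [h4] at h5
      exact h5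
    have h0' : ∀ r : ℝ, r = 0 → HasMFDerivAt 𝓘(ℝ, ℝ) (𝓡 n) (fun s : ℝ => Φ (s • a) p) r 0 := by
      intro r hr
      subst hr
      exact h0
    have hz : ∀ s : ℝ, mfderiv 𝓘(ℝ, ℝ) (𝓡 n) (fun s : ℝ => Φ (s • a) p) s = 0 := by
      intro s
      have h1 : HasMFDerivAt 𝓘(ℝ, ℝ) 𝓘(ℝ, ℝ) (fun r : ℝ => r - s) s
          (ContinuousLinearMap.id ℝ ℝ) := ((hasFDerivAt_id s).sub_const s).hasMFDerivAt
      have h2 := HasMFDerivAt.comp (f := fun r : ℝ => r - s) s (h0' (s - s) (sub_self s)) h1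
      have h3 := (hmd (s • a) (Φ ((s - s) • a) p)).hasMFDerivAt.comp s h2
      have h4 : (Φ (s • a) ∘ ((fun s : ℝ => Φ (s • a) p) ∘ fun r : ℝ => r - s)) =
          fun s : ℝ => Φ (s • a) p := by
        funext r
        simp only [Function.comp]
        rw [← hΦ.add, ← add_smul]
        congr 2
        ring
      rw [h4] at h3
      rw [h3.mfderiv]
      exact ContinuousLinearMap.ext fun r => by
        exact (mfderiv (𝓡 n) (𝓡 n) (Φ (s • a)) (Φ ((s - s) • a) p)).map_zero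
    have := const_curve (fun s : ℝ => Φ (s • a) p) hγ hz s 0
    simp only [zero_smul, hΦ.zero] at this
    exact this
  obtain ⟨ℓ0, hℓ0⟩ := LinearMap.exists_leftInverse_of_injective (X : ℝ × ℝ →ₗ[ℝ] Ed n)
    (LinearMap.ker_eq_bot.2 Xinj)
  let ℓ : Ed n →L[ℝ] ℝ × ℝ := LinearMap.toContinuousLinearMap ℓ0
  have hℓ : ∀ a, ℓ (X a) = a := fun a => by
    have := LinearMap.congr_fun hℓ0 a
    exact this
  let κ := (extChartAt (𝓡 n) p).symm
  let c : Ed n := extChartAt (𝓡 n) p p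
  have hc : c ∈ (extChartAt (𝓡 n) p).target := mem_extChartAt_target p
  have hκc : κ c = p := extChartAt_to_inv p
  have hop : IsOpen (extChartAt (𝓡 n) p).target := isOpen_extChartAt_target p
  have hκs : ∀ z ∈ (extChartAt (𝓡 n) p).target, ContMDiffAt 𝓘(ℝ, Ed n) (𝓡 n) ∞ κ z :=
    fun z hz => (contMDiffOn_extChartAt_symm p).contMDiffAt (hop.mem_nhds hz)
  let ψ : Ed n → E := fun y => Φ (ℓ y) (κ (c + (y - X (ℓ y))))
  have hA : ContDiff ℝ ∞ (fun y : Ed n => c + (y - X (ℓ y))) := by fun_prop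
  have hψ0 : ψ 0 = p := by simp [ψ, hΦ.zero, hκc]
  have hψe : ∀ y t, ψ (y + X t) = Φ t (ψ y) := by
    intro y t
    simp only [ψ]
    rw [← hΦ.add, map_add, hℓ, map_add, add_comm (ℓ y) t]
    congr 2
    abel
  have hψs : ∀ᶠ y in 𝓝 (0 : Ed n), ContMDiffAt 𝓘(ℝ, Ed n) (𝓡 n) ∞ ψ y := by
    have h1 : ∀ᶠ y in 𝓝 (0 : Ed n), c + (y - X (ℓ y)) ∈ (extChartAt (𝓡 n) p).target := by
      apply hA.continuous.continuousAt.preimage_mem_nhds
      apply hop.mem_nhds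
      simpa using hc
    filter_upwards [h1] with y hy
    have h2 : ContMDiffAt 𝓘(ℝ, Ed n) 𝓘(ℝ, ℝ × ℝ) ∞ (fun y => ℓ y) y := ℓ.contDiff.contMDiff _
    have h3 : ContMDiffAt 𝓘(ℝ, Ed n) (𝓡 n) ∞ (fun y => κ (c + (y - X (ℓ y)))) y :=
      (hκs _ hy).comp y (hA.contMDiff _)
    exact (hΦ.smooth _).comp y (h2.prodMk h3)
  have hψv : ∀ᶠ y in 𝓝 (0 : Ed n), ∀ a, (show Ed n from mfderiv 𝓘(ℝ, Ed n) (𝓡 n) ψ y (X a)) =
        vf (n := n) Φ a (ψ y) := by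
    filter_upwards [hψs] with y hy a
    have h1 : HasMFDerivAt 𝓘(ℝ, ℝ × ℝ) 𝓘(ℝ, Ed n) (fun t : ℝ × ℝ => y + X t) 0 X :=
      (X.hasFDerivAt.const_add y).hasMFDerivAt
    have h2 : ∀ z, z = y → HasMFDerivAt 𝓘(ℝ, Ed n) (𝓡 n) ψ z
        (show Ed n →L[ℝ] Ed n from mfderiv 𝓘(ℝ, Ed n) (𝓡 n) ψ y) := by
      intro z hz
      subst hz
      exact (hy.mdifferentiableAt (by simp)).hasMFDerivAt
    have h3 := (h2 (y + X 0) (by simp)).comp (0 : ℝ × ℝ) h1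
    have h4 : (ψ ∘ fun t : ℝ × ℝ => y + X t) = fun t => Φ t (ψ y) := by
      funext t
      exact hψe y t
    rw [h4] at h3
    have h5 := h3.mfderiv
    have h6 : vf (n := n) Φ a (ψ y) = (show ℝ × ℝ →L[ℝ] Ed n from
        mfderiv 𝓘(ℝ, ℝ × ℝ) (𝓡 n) (fun t => Φ t (ψ y)) 0) a := rfl
    rw [h6, h5]
    rfl
  have hid : ∀ v : Ed n, (show Ed n from mfderiv 𝓘(ℝ, Ed n) (𝓡 n) ψ 0 v) = v := by
    let Dψ : Ed n →L[ℝ] Ed n := mfderiv 𝓘(ℝ, Ed n) (𝓡 n) ψ 0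
    have hDX : ∀ a, Dψ (X a) = X a := by
      intro a
      have h1 := hψv.self_of_nhds a
      rw [hψ0] at h1
      exact h1
    have hκm : HasMFDerivAt 𝓘(ℝ, Ed n) (𝓡 n) κ c (ContinuousLinearMap.id ℝ (Ed n)) := by
      have h1 := ((hκs c hc).mdifferentiableAt (by simp)).hasMFDerivAt
      have h2 : mfderiv 𝓘(ℝ, Ed n) (𝓡 n) κ c = ContinuousLinearMap.id ℝ (Ed n) := by
        have h3 := mfderivWithin_range_extChartAt_symm (I := 𝓡 n) (x := p)
        rw [ModelWithCorners.Boundaryless.range_eq_univ, mfderivWithin_univ] at h3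
        exact h3
      rw [h2] at h1
      exact h1
    have hDz : ∀ z, ℓ z = 0 → Dψ z = z := by
      intro z hz
      have h1 : ∀ b : Ed n, HasMFDerivAt 𝓘(ℝ, ℝ) 𝓘(ℝ, Ed n) (fun s : ℝ => b + s • z) (0 : ℝ)
          (ContinuousLinearMap.smulRight (1 : ℝ →L[ℝ] ℝ) z) := fun b =>
        (((hasFDerivAt_id (0 : ℝ)).smul_const z).const_add b).hasMFDerivAt
      have h2 : ∀ x, x = 0 → HasMFDerivAt 𝓘(ℝ, Ed n) (𝓡 n) ψ x
          (show Ed n →L[ℝ] Ed n from mfderiv 𝓘(ℝ, Ed n) (𝓡 n) ψ 0) := by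
        intro x hx
        subst hx
        exact (hψs.self_of_nhds.mdifferentiableAt (by simp)).hasMFDerivAt
      have h3 := HasMFDerivAt.comp (f := fun s : ℝ => (0 : Ed n) + s • z) (0 : ℝ)
        (h2 ((0 : Ed n) + (0 : ℝ) • z) (by simp)) (h1 0)
      have h4 : ∀ x, x = c → HasMFDerivAt 𝓘(ℝ, Ed n) (𝓡 n) κ x
          (ContinuousLinearMap.id ℝ (Ed n)) := by
        intro x hx
        subst hx
        exact hκm
      have h5 := HasMFDerivAt.comp (f := fun s : ℝ => c + s • z) (0 : ℝ)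
        (h4 (c + (0 : ℝ) • z) (by simp)) (h1 c)
      have h6 : (ψ ∘ fun s : ℝ => (0 : Ed n) + s • z) = (κ ∘ fun s : ℝ => c + s • z) := by
        funext s
        simp [ψ, hz, hΦ.zero]
      rw [h6] at h3
      have h7 := hasMFDerivAt_unique h3 h5
      have h8 : (Dψ.comp (ContinuousLinearMap.smulRight (1 : ℝ →L[ℝ] ℝ) z)) 1 =
        ((ContinuousLinearMap.id ℝ (Ed n)).comp
          (ContinuousLinearMap.smulRight (1 : ℝ →L[ℝ] ℝ) z)) 1 :=
        congrArg (fun L : ℝ →L[ℝ] Ed n => L 1) h7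
      simpa using h8
    intro v
    show Dψ v = v
    have hz : ℓ (v - X (ℓ v)) = 0 := by rw [map_sub, hℓ, sub_self]
    have h1 := hDz _ hz
    rw [map_sub, hDX] at h1
    exact sub_left_injective h1
  refine ⟨ψ, X, Xinj, hψ0, ⟨hψs, ?_⟩, hψe, hψv⟩
  intro v w hvw
  have h1 := hid v
  have h2 := hid w
  have h3 : (show Ed n from mfderiv 𝓘(ℝ, Ed n) (𝓡 n) ψ 0 v) =
    (show Ed n from mfderiv 𝓘(ℝ, Ed n) (𝓡 n) ψ 0 w) := hvw
  rw [h1, h2] at h3
  exact h3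

end Pool.Agent.CBG.H52
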